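import Pool.Agent.N721.SR.ZE2

/-!
# The exponent of the Turán number of `K_{r,r}`: expander form

For every `r ≥ 2` the exponent `2 - 1 / r` is sharp for `K_{r,r}` if and only if for every
`0 < ε < 1 - 1 / r` there is a constant `K` such that for all large `n` there is a graph without
`K_{r,r}` on `u` vertices, `n ^ (1 - ε) ≤ u ≤ n`, all degrees between `D` and `K D` where
`D ≥ u ^ (1 - 1 / r - ε)`, such that at least `D |X|` edges leave every set `X` of at most half of
the vertices and such that the Laplacian has spectral gap at least `D / (2 K)`. The constant `K`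
does not depend on `n`.
-/

set_option autoImplicit false

namespace Pool.Agent.Results.MP_9a747a_co.ExponentExpanderForm

open Finset Pool.Agent.N721.SR

theorem result (r : ℕ) (hr : 2 ≤ r) :
    (∀ ε : ℝ, 0 < ε → ∃ N : ℕ, ∀ n : ℕ, N ≤ n → (n : ℝ) ^ (2 - 1 / (r : ℝ) - ε) ≤
      SimpleGraph.extremalNumber n (completeBipartiteGraph (Fin r) (Fin r))) ↔
    ∀ ε : ℝ, 0 < ε → ε < 1 - 1 / (r : ℝ) → ∃ (K : ℝ) (N : ℕ), ∀ n : ℕ, N ≤ n →
      ∃ (u : ℕ) (G : SimpleGraph (Fin u)) (_ : DecidableRel G.Adj) (D : ℝ),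
        u ≤ n ∧ (n : ℝ) ^ (1 - ε) ≤ u ∧ (u : ℝ) ^ (1 - 1 / (r : ℝ) - ε) ≤ D ∧
        (completeBipartiteGraph (Fin r) (Fin r)).Free G ∧
        -- degrees
        (∀ x, D ≤ G.degree x ∧ (G.degree x : ℝ) ≤ K * D) ∧
        -- edge expansion
        (∀ X : Finset (Fin u), 2 * #X ≤ u →
          D * #X ≤ #((X ×ˢ Xᶜ).filter fun p => G.Adj p.1 p.2)) ∧
        -- spectral gap
        ∀ f : Fin u → ℝ, ∑ x, f x = 0 →
          D * ∑ x, f x ^ 2 ≤ K * ∑ x, ∑ y, G.adjMatrix ℝ x y * (f x - f y) ^ 2 :=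
  krr_exponent r hr

end Pool.Agent.Results.MP_9a747a_co.ExponentExpanderForm
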